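import Pool.Agent.Lib.MP_1f15ea_co.Glue

/-!
# The concrete blocks

Adjacency matrices are stored as lists of bit masks.
-/

namespace Pool.Agent.Lib.MP_1f15ea_co

open Finset

/-- Adjacency read off a list of bit masks. -/
def tb (m : List ℕ) (i j : ℕ) : Bool := (m.getD i 0).testBit j

/-- `noDom adj cand c T`: no set of at most `c` candidates dominates all targets in `T`. -/
def noDom (adj : ℕ → ℕ → Bool) (cand : List ℕ) : ℕ → List ℕ → Bool
  | _, [] => false
  | 0, _ :: _ => true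
  | c + 1, t :: T => cand.all fun s =>
      !adj t s || noDom adj cand c ((t :: T).filter fun u => !adj u s)

lemma noDom_spec (adj : ℕ → ℕ → Bool) (cand : List ℕ) {w : ℕ} (c : ℕ) (T : List ℕ)
    (h : noDom adj cand c T = true) (S : Finset (Fin w)) (hS : ∀ s ∈ S, s.val ∈ cand)
    (hc : S.card ≤ c) : ∃ u ∈ T, ∀ s ∈ S, adj u s.val = false := by
  classical
  induction c generalizing T S with
  | zero =>
    match T, h with
    | t :: T, _ =>
      have : S = ∅ := Finset.card_eq_zero.mp (Nat.le_zero.mp hc)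
      subst this
      exact ⟨t, by simp, by simp⟩
  | succ c ih =>
    match T, h with
    | t :: T, h =>
      by_cases hex : ∃ s ∈ S, adj t s.val = true
      · obtain ⟨s, hs, hts⟩ := hex
        rw [noDom, List.all_eq_true] at h
        have h1 := h s.val (hS s hs)
        rw [hts] at h1
        simp only [Bool.not_true, Bool.false_or] at h1
        obtain ⟨u, hu, hu'⟩ := ih _ h1 (S.erase s)
          (fun a ha => hS a (Finset.mem_of_mem_erase ha))
          (by have := Finset.card_erase_add_one hs; omega)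
        rw [List.mem_filter] at hu
        refine ⟨u, hu.1, fun a ha => ?_⟩
        by_cases has : a = s
        · subst has
          have := hu.2
          simpa using this
        · exact hu' a (Finset.mem_erase.mpr ⟨has, ha⟩)
      · push Not at hex
        exact ⟨t, by simp, fun s hs => by simpa using hex s hs⟩

/-- The graph on `Fin w` read off a list of bit masks. -/
def gr (m : List ℕ) (w : ℕ) : SimpleGraph (Fin w) where
  Adj i j := i ≠ j ∧ tb m i.val j.val = true ∧ tb m j.val i.val = true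
  symm := ⟨fun _ _ h => ⟨h.1.symm, h.2.2, h.2.1⟩⟩
  loopless := ⟨fun _ h => h.1 rfl⟩

instance (m : List ℕ) (w : ℕ) : DecidableRel (gr m w).Adj := fun i j =>
  inferInstanceAs (Decidable (i ≠ j ∧ tb m i.val j.val = true ∧ tb m j.val i.val = true))

lemma not_adj_of_tb {m : List ℕ} {w : ℕ} {i j : Fin w} (h : tb m i.val j.val = false) :
    ¬ (gr m w).Adj i j := by
  rintro ⟨_, h1, _⟩
  rw [h] at h1
  exact absurd h1 (by decide)

/-- Masks of the middle block; `16` is the new root, `17` stands for the old root. -/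
def mM : List ℕ := [131298, 131285, 131258, 131188, 61646, 61581, 61467, 61495, 123392, 120064,
  113152, 95232, 52976, 36336, 7152, 14320, 3840, 15]

def attM (u : Fin 17) : Prop := u.val < 4

instance : DecidablePred attM := fun u => inferInstanceAs (Decidable (u.val < 4))

/-- Witness pairs for the deletion of a vertex of the middle block. -/
def wM : List (Fin 17 × Fin 17) := [(2, 4), (3, 5), (0, 6), (0, 7), (0, 5), (1, 4), (2, 5), (3, 6),
  (10, 12), (11, 13), (8, 14), (8, 15), (8, 13), (9, 12), (10, 13), (11, 14)]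

def pairM (v : Fin 17) : Fin 17 × Fin 17 := wM.getD v.val (0, 0)

lemma mid_F9 : ∀ v : Fin 17, v ≠ 16 →
    16 ∉ ({(pairM v).1, (pairM v).2} : Finset (Fin 17)) ∧
    v ∉ ({(pairM v).1, (pairM v).2} : Finset (Fin 17)) ∧
    (((∃ s ∈ ({(pairM v).1, (pairM v).2} : Finset (Fin 17)), attM s) ∧
      ∀ u, u ≠ 16 → u ≠ v → (gr mM 17).Adj u 16 ∨
        ∃ s ∈ ({(pairM v).1, (pairM v).2} : Finset (Fin 17)), (gr mM 17).Adj u s) ∨
      ∀ u, u ≠ v → attM u ∨
        ∃ s ∈ ({(pairM v).1, (pairM v).2} : Finset (Fin 17)), (gr mM 17).Adj u s) := by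
  decide +kernel


lemma attM_iff (s : Fin 17) (h : tb mM 17 s.val = false) : ¬ attM s := by
  revert s
  decide +kernel

theorem midBlock : MidBlock (gr mM 17) attM 16 where
  natt := by decide
  F1 := by
    intro S hS hr
    obtain ⟨u, hu, hu'⟩ := noDom_spec (tb mM) (List.range 16) 1 [4, 5, 6, 7, 12, 13, 14, 15]
      (by decide +kernel) S (by
        intro s hs
        have h1 : s ≠ 16 := by rintro rfl; exact hr hs
        have h2 := s.isLt
        have h3 : s.val ≠ 16 := fun h => h1 (Fin.ext h)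
        rw [List.mem_range]; omega) hS
    have hT : ∀ u ∈ [4, 5, 6, 7, 12, 13, 14, 15], u < 16 ∧ ¬ u < 4 ∧ tb mM u 16 = false := by
      decide
    obtain ⟨h1, h2, h3⟩ := hT u hu
    refine ⟨⟨u, by omega⟩, ?_, h2, not_adj_of_tb h3, fun s hs => not_adj_of_tb (hu' s hs)⟩
    intro h
    have : u = 16 := congrArg Fin.val h
    omega
  F2 := by
    intro S hS hr
    obtain ⟨u, hu, hu'⟩ := noDom_spec (tb mM) (List.range 16) 2
      [17, 0, 1, 2, 3, 4, 5, 6, 7, 12, 13, 14, 15]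
      (by decide +kernel) S (by
        intro s hs
        have h1 : s ≠ 16 := by rintro rfl; exact hr hs
        have h2 := s.isLt
        have h3 : s.val ≠ 16 := fun h => h1 (Fin.ext h)
        rw [List.mem_range]; omega) hS
    have hT : ∀ u ∈ [17, 0, 1, 2, 3, 4, 5, 6, 7, 12, 13, 14, 15], u = 17 ∨
        (u < 16 ∧ tb mM u 16 = false) := by
      decide
    rcases hT u hu with rfl | ⟨h1, h3⟩
    · exact Or.inl fun s hs => attM_iff s (hu' s hs)
    · refine Or.inr ⟨⟨u, by omega⟩, ?_, not_adj_of_tb h3, fun s hs => not_adj_of_tb (hu' s hs)⟩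
      intro h
      have : u = 16 := congrArg Fin.val h
      omega
  F3 := by
    intro S hS hr
    obtain ⟨u, hu, hu'⟩ := noDom_spec (tb mM) (List.range 16) 2
      [16, 4, 5, 6, 7, 8, 9, 10, 11, 12, 13, 14, 15]
      (by decide +kernel) S (by
        intro s hs
        have h1 : s ≠ 16 := by rintro rfl; exact hr hs
        have h2 := s.isLt
        have h3 : s.val ≠ 16 := fun h => h1 (Fin.ext h)
        rw [List.mem_range]; omega) hS
    have hT : ∀ u ∈ [16, 4, 5, 6, 7, 8, 9, 10, 11, 12, 13, 14, 15], u < 17 ∧ ¬ u < 4 := by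
      decide
    obtain ⟨h1, h2⟩ := hT u hu
    exact ⟨⟨u, h1⟩, h2, fun s hs => not_adj_of_tb (hu' s hs)⟩
  F4 := by
    intro S hS hr
    obtain ⟨u, hu, hu'⟩ := noDom_spec (tb mM) (List.range 16) 3
      [17, 16, 0, 1, 2, 3, 4, 5, 6, 7, 8, 9, 10, 11, 12, 13, 14, 15]
      (by decide +kernel) S (by
        intro s hs
        have h1 : s ≠ 16 := by rintro rfl; exact hr hs
        have h2 := s.isLt
        have h3 : s.val ≠ 16 := fun h => h1 (Fin.ext h)
        rw [List.mem_range]; omega) hS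
    have hT : ∀ u ∈ [17, 16, 0, 1, 2, 3, 4, 5, 6, 7, 8, 9, 10, 11, 12, 13, 14, 15],
        u = 17 ∨ u < 17 := by
      decide
    rcases hT u hu with rfl | h1
    · exact Or.inl fun s hs => attM_iff s (hu' s hs)
    · exact Or.inr ⟨⟨u, h1⟩, fun s hs => not_adj_of_tb (hu' s hs)⟩
  F5 := ⟨{12, 15}, by decide, by decide, by decide +kernel⟩
  F6 := ⟨{8, 14}, by decide, by decide, by decide +kernel⟩
  F7 := ⟨{4, 7}, by decide, by decide, by decide +kernel⟩
  F8 := ⟨{0, 6}, by decide, by decide, by decide, by decide +kernel⟩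
  F9 := by
    intro v hv
    obtain ⟨h1, h2, h3⟩ := mid_F9 v hv
    exact ⟨{(pairM v).1, (pairM v).2}, Finset.card_le_two, h1, h2, h3⟩

/-- Levels of the middle block. -/
def gM (u : Fin 17) : ℕ := [1, 1, 1, 1, 2, 2, 2, 2, 4, 4, 4, 4, 3, 3, 3, 3, 5].getD u.val 0

theorem levM : BlockLev (gr mM 17) attM gM where
  pos := by decide
  att1 := by decide
  down := by decide +kernel
  lip := by decide +kernel

/-- A general criterion for end blocks. -/
theorem endBlock_of (m : List ℕ) (w a c : ℕ)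
    (ha : ∀ s : Fin w, tb m w s.val = false → ¬ s.val < a)
    (L3 L4 : List ℕ) (hL3 : ∀ u ∈ L3, u < w ∧ ¬ u < a) (hL4 : ∀ u ∈ L4, u = w ∨ u < w)
    (h3 : noDom (tb m) (List.range w) (c - 1) L3 = true)
    (h4 : noDom (tb m) (List.range w) c L4 = true)
    (T1 : ∃ S : Finset (Fin w), S.card ≤ c ∧ ∀ u, ∃ s ∈ S, (gr m w).Adj u s)
    (T2 : ∀ v : Fin w, ∃ S : Finset (Fin w), v ∉ S ∧
      ((S.card ≤ c ∧ (∃ s ∈ S, s.val < a) ∧ ∀ u, u ≠ v → ∃ s ∈ S, (gr m w).Adj u s) ∨
        (S.card + 1 ≤ c ∧ ∀ u, u ≠ v → u.val < a ∨ ∃ s ∈ S, (gr m w).Adj u s)))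
    (T5 : ∃ S : Finset (Fin w), S.card ≤ c ∧ (∃ s ∈ S, s.val < a) ∧
      ∀ u, u.val < a ∨ ∃ s ∈ S, (gr m w).Adj u s) :
    EndBlock (gr m w) (fun u => u.val < a) c where
  T1 := T1
  T2 := T2
  T5 := T5
  T3 := by
    intro S hS
    obtain ⟨u, hu, hu'⟩ := noDom_spec (tb m) (List.range w) (c - 1) L3 h3 S
      (fun s _ => List.mem_range.mpr s.isLt) (by omega)
    obtain ⟨h1, h2⟩ := hL3 u hu
    exact ⟨⟨u, h1⟩, h2, fun s hs => not_adj_of_tb (hu' s hs)⟩
  T4 := by
    intro S hS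
    obtain ⟨u, hu, hu'⟩ := noDom_spec (tb m) (List.range w) c L4 h4 S
      (fun s _ => List.mem_range.mpr s.isLt) hS
    rcases hL4 u hu with rfl | h1
    · exact Or.inl fun s hs => ha s (hu' s hs)
    · exact Or.inr ⟨⟨u, h1⟩, fun s hs => not_adj_of_tb (hu' s hs)⟩

/-! ### End block `T0` (9 vertices, `c = 2`, 3 levels) -/

def m0 : List ℕ := [738, 725, 698, 628, 462, 397, 283, 311, 240, 15]

def w0 : List (List (Fin 9)) := [[2, 4], [3, 5], [0, 6], [0, 7], [0, 5], [1, 4], [2, 5], [3, 6],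
  [1, 2]]

def s0 (v : Fin 9) : Finset (Fin 9) := (w0.getD v.val []).toFinset

lemma t0_T2 : ∀ v : Fin 9, v ∉ s0 v ∧
    (((s0 v).card ≤ 2 ∧ (∃ s ∈ s0 v, s.val < 4) ∧ ∀ u, u ≠ v → ∃ s ∈ s0 v, (gr m0 9).Adj u s) ∨
      ((s0 v).card + 1 ≤ 2 ∧ ∀ u, u ≠ v → u.val < 4 ∨ ∃ s ∈ s0 v, (gr m0 9).Adj u s)) := by
  decide +kernel

theorem end0 : EndBlock (gr m0 9) (fun u => u.val < 4) 2 :=
  endBlock_of m0 9 4 2 (by decide +kernel) [8, 4, 5, 6, 7] [9, 8, 0, 1, 2, 3, 4, 5, 6, 7]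
    (by decide) (by decide) (by decide +kernel) (by decide +kernel)
    ⟨{4, 7}, by decide, by decide +kernel⟩ (fun v => ⟨s0 v, t0_T2 v⟩)
    ⟨{0, 6}, by decide, by decide, by decide +kernel⟩

def g0 (u : Fin 9) : ℕ := [1, 1, 1, 1, 2, 2, 2, 2, 3].getD u.val 0

theorem lev0 : BlockLev (gr m0 9) (fun u => u.val < 4) g0 where
  pos := by decide
  att1 := by decide
  down := by decide +kernel
  lip := by decide +kernel

/-! ### End block `T1` (10 vertices, `c = 3`, 4 levels) -/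

def m1 : List ℕ := [1044, 1048, 105, 390, 195, 900, 788, 568, 616, 480, 3]

def w1 : List (List (Fin 10)) := [[1, 3, 8], [0, 2, 5], [7, 9], [6, 9], [2, 5], [1, 4, 6], [3, 7],
  [2, 6], [0, 4, 7], [0, 2, 3]]

def s1 (v : Fin 10) : Finset (Fin 10) := (w1.getD v.val []).toFinset

lemma t1_T2 : ∀ v : Fin 10, v ∉ s1 v ∧
    (((s1 v).card ≤ 3 ∧ (∃ s ∈ s1 v, s.val < 2) ∧ ∀ u, u ≠ v → ∃ s ∈ s1 v, (gr m1 10).Adj u s) ∨
      ((s1 v).card + 1 ≤ 3 ∧ ∀ u, u ≠ v → u.val < 2 ∨ ∃ s ∈ s1 v, (gr m1 10).Adj u s)) := by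
  decide +kernel

theorem end1 : EndBlock (gr m1 10) (fun u => u.val < 2) 3 :=
  endBlock_of m1 10 2 3 (by decide +kernel) [9, 2, 3, 4, 5, 6, 7, 8] [10, 9, 0, 1, 2, 3, 4, 5, 6, 7, 8]
    (by decide) (by decide) (by decide +kernel) (by decide +kernel)
    ⟨{2, 3, 6}, by decide, by decide +kernel⟩ (fun v => ⟨s1 v, t1_T2 v⟩)
    ⟨{0, 2, 5}, by decide, by decide, by decide +kernel⟩

def g1 (u : Fin 10) : ℕ := [1, 1, 2, 2, 2, 3, 3, 3, 3, 4].getD u.val 0

theorem lev1 : BlockLev (gr m1 10) (fun u => u.val < 2) g1 where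
  pos := by decide
  att1 := by decide
  down := by decide +kernel
  lip := by decide +kernel

/-! ### End block `T2` (19 vertices, `c = 4`, 6 levels) -/

def m2 : List ℕ := [524412, 524536, 524753, 524691, 495, 851, 695, 862, 700, 15840, 231936,
  218624, 190976, 119296, 473088, 406528, 289792, 318464, 245760, 15]

def w2 : List (List (Fin 19)) := [[1, 7, 14, 17], [2, 8, 14, 17], [1, 5, 14, 17], [2, 6, 14, 17],
  [9, 10, 16], [2, 7, 14, 17], [3, 8, 14, 17], [0, 5, 14, 17], [0, 6, 14, 17], [0, 3, 14, 17],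
  [0, 3, 12, 14], [0, 3, 13, 15], [0, 3, 10, 16], [0, 3, 10, 17], [0, 3, 10, 15], [0, 3, 11, 14],
  [0, 3, 12, 15], [0, 3, 13, 16], [0, 3, 11, 12]]

def s2 (v : Fin 19) : Finset (Fin 19) := (w2.getD v.val []).toFinset

lemma t2_T2 : ∀ v : Fin 19, v ∉ s2 v ∧
    (((s2 v).card ≤ 4 ∧ (∃ s ∈ s2 v, s.val < 4) ∧ ∀ u, u ≠ v → ∃ s ∈ s2 v, (gr m2 19).Adj u s) ∨
      ((s2 v).card + 1 ≤ 4 ∧ ∀ u, u ≠ v → u.val < 4 ∨ ∃ s ∈ s2 v, (gr m2 19).Adj u s)) := by
  decide +kernel

theorem end2 : EndBlock (gr m2 19) (fun u => u.val < 4) 4 :=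
  endBlock_of m2 19 4 4 (by decide +kernel)
    [18, 9, 4, 5, 6, 7, 8, 10, 11, 12, 13, 14, 15, 16, 17]
    [19, 18, 9, 0, 1, 2, 3, 4, 5, 6, 7, 8, 10, 11, 12, 13, 14, 15, 16, 17]
    (by decide) (by decide) (by decide +kernel) (by decide +kernel)
    ⟨{4, 5, 14, 17}, by decide, by decide +kernel⟩ (fun v => ⟨s2 v, t2_T2 v⟩)
    ⟨{0, 9, 10, 16}, by decide, by decide, by decide +kernel⟩

def g2 (u : Fin 19) : ℕ := [1, 1, 1, 1, 2, 2, 2, 2, 2, 3, 4, 4, 4, 4, 5, 5, 5, 5, 6].getD u.val 0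

theorem lev2 : BlockLev (gr m2 19) (fun u => u.val < 4) g2 where
  pos := by decide
  att1 := by decide
  down := by decide +kernel
  lip := by decide +kernel

/-! ### The start block (10 vertices, parameter `2`, 3 levels, root `9`) -/

def mB : List ℕ := [30, 453, 427, 373, 233, 924, 794, 566, 622, 480]

def wB : List (List (Fin 10)) := [[5, 8], [3, 5], [4, 6], [1, 7], [1, 8], [1, 6], [2, 5], [3, 6],
  [4, 7]]

def sB (v : Fin 10) : Finset (Fin 10) := (wB.getD v.val []).toFinset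

lemma start_cr : ∀ v : Fin 10, v ≠ 9 → 9 ∉ sB v ∧ v ∉ sB v ∧
    (((sB v).card ≤ 2 ∧ ∀ u, u ≠ v → ∃ w ∈ sB v, (gr mB 10).Adj u w) ∨
      ((sB v).card + 1 ≤ 2 ∧ ∀ u, u ≠ v → u ≠ 9 →
        (gr mB 10).Adj u 9 ∨ ∃ w ∈ sB v, (gr mB 10).Adj u w)) := by
  decide +kernel

theorem start_good : Good (gr mB 10) 9 2 where
  lb0 := by
    intro S _ hS
    by_contra hcon
    obtain ⟨u, hu, hu'⟩ := noDom_spec (tb mB) (List.range 10) 1 [0, 1, 2, 3, 4]
      (by decide +kernel) S (fun s _ => List.mem_range.mpr s.isLt) (by omega)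
    have hT : ∀ u ∈ [0, 1, 2, 3, 4], u < 9 ∧ tb mB u 9 = false := by decide
    obtain ⟨h1, h2⟩ := hT u hu
    have hne : (⟨u, by omega⟩ : Fin 10) ≠ 9 := by
      intro h
      have : u = 9 := congrArg Fin.val h
      omega
    rcases hS ⟨u, by omega⟩ hne with h | ⟨w, hw, hw'⟩
    · exact not_adj_of_tb h2 h
    · exact not_adj_of_tb (hu' w hw) hw'
  lb1 := by
    intro S _ hS
    by_contra hcon
    obtain ⟨u, hu, hu'⟩ := noDom_spec (tb mB) (List.range 10) 2 [0, 9, 1, 2, 3, 4, 5, 6, 7, 8]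
      (by decide +kernel) S (fun s _ => List.mem_range.mpr s.isLt) (by omega)
    have hT : ∀ u ∈ [0, 9, 1, 2, 3, 4, 5, 6, 7, 8], u < 10 := by decide
    obtain ⟨w, hw, hw'⟩ := hS ⟨u, hT u hu⟩
    exact not_adj_of_tb (hu' w hw) hw'
  ub0 := ⟨{2, 3}, by decide, by decide, by decide +kernel⟩
  ub1 := ⟨{1, 6}, by decide, by decide, by decide +kernel⟩
  cr := fun v hv => ⟨sB v, start_cr v hv⟩

def gB (u : Fin 10) : ℕ := [0, 1, 1, 1, 1, 2, 2, 2, 2, 3].getD u.val 0

theorem start_lev : Lev (gr mB 10) gB where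
  f0 := ⟨0, by decide, by decide⟩
  down := by decide +kernel
  lip := by decide +kernel

end Pool.Agent.Lib.MP_1f15ea_co
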