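import Pool.Agent.Lib.MP_1f15ea_co.Upper
import Pool.Agent.Lib.MP_1f15ea_co.Blocks

/-!
# Assembly: the maximum diameter
-/

namespace Pool.Agent.Lib.MP_1f15ea_co

open Finset

/-- The upper bound in terms of the diameter. -/
theorem diam_le (k : ℕ) (hk : 4 ≤ k) {V : Type} [Fintype V] (G : SimpleGraph V)
    (hG : G.Connected) (hTD : ∃ S : Finset V, ∀ u : V, ∃ w ∈ S, G.Adj u w)
    (hmin : ∀ S : Finset V, (∀ u : V, ∃ w ∈ S, G.Adj u w) → k ≤ S.card)
    (hcrit : ∀ v : V, (¬ ∃ u : V, G.Adj v u ∧ ∀ w : V, G.Adj u w → w = v) →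
        ∃ S : Finset V, v ∉ S ∧ S.card < k ∧ ∀ u : V, u ≠ v → ∃ w ∈ S, G.Adj u w) :
    G.diam ≤ (5 * k - 7) / 3 := by
  have : Nonempty V := hG.nonempty
  obtain ⟨x, y, hxy⟩ := G.exists_dist_eq_diam
  have F1 : ∀ u w, G.Adj u w → G.dist x w ≤ G.dist x u + 1 := by
    intro u w h
    have h1 := hG.dist_triangle (u := x) (v := u) (w := w)
    rw [SimpleGraph.dist_eq_one_iff_adj.mpr h] at h1
    exact h1
  have F2 : ∀ u, 0 < G.dist x u → ∃ w, G.Adj u w ∧ G.dist x w + 1 = G.dist x u := by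
    intro u hu
    obtain ⟨p, hp⟩ := hG.exists_walk_length_eq_dist u x
    cases p with
    | nil => rw [SimpleGraph.dist_self] at hu; omega
    | cons h p =>
      rename_i w
      refine ⟨w, h, ?_⟩
      have h1 := SimpleGraph.dist_le p
      rw [SimpleGraph.Walk.length_cons, SimpleGraph.dist_comm] at hp
      rw [SimpleGraph.dist_comm] at h1
      have h2 := F1 w u h.symm
      omega
  have F3 : ∀ j i, i + j = G.diam → ∃ u, G.dist x u = i := by
    intro j
    induction j with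
    | zero => intro i hi; exact ⟨y, by omega⟩
    | succ j ih =>
      intro i hi
      obtain ⟨u, hu⟩ := ih (i + 1) (by omega)
      obtain ⟨w, _, hw'⟩ := F2 u (by omega)
      exact ⟨w, by omega⟩
  have := upper_abs G (G.dist x) k G.diam hk F1 F2
    (fun i hi => F3 (G.diam - i) i (by omega)) hTD hmin hcrit
  omega

lemma lev_le_length {V : Type} {G : SimpleGraph V} {f : V → ℕ} (hf : Lev G f) {u w : V}
    (p : G.Walk u w) : f u ≤ f w + p.length := by
  induction p with
  | nil => simp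
  | cons h p ih =>
    rw [SimpleGraph.Walk.length_cons]
    have := hf.lip _ _ h
    omega

lemma lev_connected {V : Type} {G : SimpleGraph V} {f : V → ℕ} (hf : Lev G f) :
    G.Connected := by
  obtain ⟨x, hx, hx'⟩ := hf.f0
  have key : ∀ n u, f u ≤ n → G.Reachable u x := by
    intro n
    induction n with
    | zero =>
      intro u hu
      rw [hx' u (by omega)]
    | succ n ih =>
      intro u hu
      rcases Nat.eq_zero_or_pos (f u) with h | h
      · rw [hx' u h]
      · obtain ⟨w, hw, hw'⟩ := hf.down u h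
        exact hw.reachable.trans (ih w (by omega))
  have : Nonempty V := ⟨x⟩
  exact SimpleGraph.Connected.mk fun u w => (key _ u le_rfl).trans (key _ w le_rfl).symm

/-- Everything asked of the extremal graph, from criticality and a level function. -/
theorem final_of {n k : ℕ} (hk : 4 ≤ k) {G : SimpleGraph (Fin n)} {f : Fin n → ℕ}
    (hc : Crit G k) (hf : Lev G f) (hy : ∃ y, f y = (5 * k - 7) / 3) :
    G.Connected ∧
      (∃ S : Finset (Fin n), S.card = k ∧ ∀ u : Fin n, ∃ w ∈ S, G.Adj u w) ∧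
      (∀ S : Finset (Fin n), (∀ u : Fin n, ∃ w ∈ S, G.Adj u w) → k ≤ S.card) ∧
      (∀ v : Fin n, (¬ ∃ u : Fin n, G.Adj v u ∧ ∀ w : Fin n, G.Adj u w → w = v) →
        ∃ S : Finset (Fin n), v ∉ S ∧ S.card < k ∧ ∀ u : Fin n, u ≠ v → ∃ w ∈ S, G.Adj u w) ∧
      G.diam = (5 * k - 7) / 3 := by
  have hconn := lev_connected hf
  obtain ⟨S, hS1, hS2⟩ := hc.td
  refine ⟨hconn, ⟨S, le_antisymm hS1 (hc.min S hS2), hS2⟩, hc.min, hc.crit, ?_⟩
  apply le_antisymm
  · exact diam_le k hk G hconn ⟨S, hS2⟩ hc.min hc.crit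
  · obtain ⟨x, hx, hx'⟩ := hf.f0
    obtain ⟨y, hy⟩ := hy
    obtain ⟨p, hp⟩ := hconn.exists_walk_length_eq_dist y x
    have h1 := lev_le_length hf p
    have : Nonempty (Fin n) := ⟨x⟩
    have h2 : G.dist y x ≤ G.diam :=
      SimpleGraph.dist_le_diam (SimpleGraph.connected_iff_ediam_ne_top.mp hconn)
    omega

theorem transport {V : Type} [Fintype V] {G : SimpleGraph V} {k : ℕ} {f : V → ℕ}
    (hc : Crit G k) (hf : Lev G f) : ∃ (n : ℕ) (G' : SimpleGraph (Fin n)) (f' : Fin n → ℕ),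
      Crit G' k ∧ Lev G' f' ∧ ∀ y, ∃ y', f' y' = f y := by
  classical
  let e : V ≃ Fin (Fintype.card V) := Fintype.equivFin V
  refine ⟨Fintype.card V, G.comap e.symm, fun a => f (e.symm a), ?_, ?_,
    fun y => ⟨e y, by simp⟩⟩
  · constructor
    · obtain ⟨S, hS1, hS2⟩ := hc.td
      refine ⟨S.map e.toEmbedding, by simpa using hS1, fun u => ?_⟩
      obtain ⟨w, hw, hw'⟩ := hS2 (e.symm u)
      exact ⟨e w, by simpa using hw, by simpa using hw'⟩
    · intro S hS
      have := hc.min (S.map e.symm.toEmbedding) (by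
        intro u
        obtain ⟨w, hw, hw'⟩ := hS (e u)
        exact ⟨e.symm w, by simpa using hw, by simpa using hw'⟩)
      simpa using this
    · intro v hv
      obtain ⟨S, hS1, hS2, hS3⟩ := hc.crit (e.symm v) (by
        rintro ⟨u, hu, hu'⟩
        apply hv
        refine ⟨e u, by simpa using hu, fun w hw => ?_⟩
        have h1 := hu' (e.symm w) (by simpa using hw)
        exact e.symm.injective h1)
      refine ⟨S.map e.toEmbedding, ?_, by simpa using hS2, fun u hu => ?_⟩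
      · simpa using hS1
      · obtain ⟨w, hw, hw'⟩ := hS3 (e.symm u) (fun h => hu (e.symm.injective h))
        exact ⟨e w, by simpa using hw, by simpa using hw'⟩
  · constructor
    · obtain ⟨x, hx, hx'⟩ := hf.f0
      refine ⟨e x, by simpa using hx, fun u hu => ?_⟩
      have := hx' (e.symm u) hu
      rw [← this]; simp
    · intro u hu
      obtain ⟨w, hw, hw'⟩ := hf.down (e.symm u) hu
      exact ⟨e w, by simpa using hw, by simpa using hw'⟩
    · intro u w h
      exact hf.lip _ _ h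

/-- The left chains. -/
theorem chain (q : ℕ) : ∃ (V : Type) (_ : Fintype V) (G : SimpleGraph V) (z : V) (f : V → ℕ),
    Good G z (2 + 3 * q) ∧ Lev G f ∧ f z = 3 + 5 * q := by
  induction q with
  | zero => exact ⟨Fin 10, inferInstance, gr mB 10, 9, gB, start_good, start_lev, rfl⟩
  | succ q ih =>
    obtain ⟨V, _, G, z, f, hG, hf, hz⟩ := ih
    refine ⟨V ⊕ Fin 17, inferInstance, glue G z (gr mM 17) attM, .inr 16, _,
      good_glue hG midBlock, lev_glue hf levM, ?_⟩
    have : gM 16 = 5 := rfl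
    rw [Sum.elim_inr, this, hz]
    ring

theorem with_end (q c d : ℕ) {W : Type} [Fintype W] {H : SimpleGraph W} {att : W → Prop}
    {g : W → ℕ} (hT : EndBlock H att c) (hg : BlockLev H att g) (y : W) (hy : g y = d) :
    ∃ (n : ℕ) (G' : SimpleGraph (Fin n)) (f' : Fin n → ℕ),
      Crit G' (2 + 3 * q + c + 1) ∧ Lev G' f' ∧ ∃ y', f' y' = 3 + 5 * q + d := by
  obtain ⟨V, _, G, z, f, hG, hf, hz⟩ := chain q
  obtain ⟨n, G', f', h1, h2, h3⟩ := transport (crit_glue hG hT) (lev_glue hf hg)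
  obtain ⟨y', hy'⟩ := h3 (.inr y)
  exact ⟨n, G', f', h1, h2, y', by rw [hy', Sum.elim_inr, hz, hy]⟩

/-! ### The case `k = 4`: the corona of a four-cycle -/

def mC : List ℕ := [26, 37, 74, 133, 1, 2, 4, 8]

def fC (u : Fin 8) : ℕ := [1, 2, 3, 2, 0, 3, 4, 3].getD u.val 0

def wC : List (List (Fin 8)) := [[], [], [], [], [1, 2, 3], [0, 2, 3], [0, 1, 3], [0, 1, 2]]

def sC (v : Fin 8) : Finset (Fin 8) := (wC.getD v.val []).toFinset

lemma critC_aux : ∀ v : Fin 8, (∃ u : Fin 8, (gr mC 8).Adj v u ∧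
      ∀ w : Fin 8, (gr mC 8).Adj u w → w = v) ∨
    (v ∉ sC v ∧ (sC v).card < 4 ∧ ∀ u : Fin 8, u ≠ v → ∃ w ∈ sC v, (gr mC 8).Adj u w) := by
  decide +kernel

theorem critC : Crit (gr mC 8) 4 where
  td := ⟨{0, 1, 2, 3}, by decide, by decide +kernel⟩
  min := by
    intro S hS
    by_contra hcon
    obtain ⟨u, hu, hu'⟩ := noDom_spec (tb mC) (List.range 8) 3 [4, 5, 6, 7]
      (by decide +kernel) S (fun s _ => List.mem_range.mpr s.isLt) (by omega)
    have hT : ∀ u ∈ [4, 5, 6, 7], u < 8 := by decide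
    obtain ⟨w, hw, hw'⟩ := hS ⟨u, hT u hu⟩
    exact not_adj_of_tb (hu' w hw) hw'
  crit := by
    intro v hv
    rcases critC_aux v with h | h
    · exact absurd h hv
    · exact ⟨sC v, h⟩

theorem levC : Lev (gr mC 8) fC where
  f0 := ⟨4, by decide, by decide⟩
  down := by decide +kernel
  lip := by decide +kernel

theorem exists_critical (k : ℕ) (hk : 4 ≤ k) :
    ∃ (n : ℕ) (G' : SimpleGraph (Fin n)) (f' : Fin n → ℕ),
      Crit G' k ∧ Lev G' f' ∧ ∃ y', f' y' = (5 * k - 7) / 3 := by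
  rcases Nat.eq_or_lt_of_le hk with rfl | hk5
  · exact ⟨8, gr mC 8, fC, critC, levC, 6, rfl⟩
  obtain ⟨q, r, hr, hkq⟩ : ∃ q r, r < 3 ∧ k = 3 * q + 5 + r :=
    ⟨(k - 5) / 3, (k - 5) % 3, Nat.mod_lt _ (by omega), by omega⟩
  subst hkq
  interval_cases r
  · obtain ⟨n, G', f', h1, h2, y', hy'⟩ := with_end q 2 3 end0 lev0 8 rfl
    refine ⟨n, G', f', ?_, h2, y', by omega⟩
    have : 3 * q + 5 + 0 = 2 + 3 * q + 2 + 1 := by ring
    rw [this]; exact h1
  · obtain ⟨n, G', f', h1, h2, y', hy'⟩ := with_end q 3 4 end1 lev1 9 rfl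
    refine ⟨n, G', f', ?_, h2, y', by omega⟩
    have : 3 * q + 5 + 1 = 2 + 3 * q + 3 + 1 := by ring
    rw [this]; exact h1
  · obtain ⟨n, G', f', h1, h2, y', hy'⟩ := with_end q 4 6 end2 lev2 18 rfl
    refine ⟨n, G', f', ?_, h2, y', by omega⟩
    have : 3 * q + 5 + 2 = 2 + 3 * q + 4 + 1 := by ring
    rw [this]; exact h1

end Pool.Agent.Lib.MP_1f15ea_co
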