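import Mathlib

/-!
# Gluing blocks at a cut vertex

Rooted graphs with controlled total domination parameters, and the operation of gluing a block
at the root.
-/

namespace Pool.Agent.Lib.MP_1f15ea_co

open Finset

/-- Glue the graph `H` to `G` by joining the vertex `z` of `G` to all vertices of `H`
satisfying `att`. -/
def glue {V W : Type} (G : SimpleGraph V) (z : V) (H : SimpleGraph W) (att : W → Prop) :
    SimpleGraph (V ⊕ W) where
  Adj := fun p q => match p, q with
    | .inl a, .inl b => G.Adj a b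
    | .inr a, .inr b => H.Adj a b
    | .inl a, .inr b => a = z ∧ att b
    | .inr a, .inl b => b = z ∧ att a
  symm := ⟨by
    rintro (a | a) (b | b) h
    · exact (show G.Adj a b from h).symm
    · exact h
    · exact h
    · exact (show H.Adj a b from h).symm⟩
  loopless := ⟨by
    rintro (a | a) h
    · exact G.loopless.irrefl a h
    · exact H.loopless.irrefl a h⟩

section
variable {V W : Type} (G : SimpleGraph V) (z : V) (H : SimpleGraph W) (att : W → Prop)

@[simp] lemma glue_ll (a b : V) : (glue G z H att).Adj (.inl a) (.inl b) ↔ G.Adj a b := Iff.rfl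
@[simp] lemma glue_rr (a b : W) : (glue G z H att).Adj (.inr a) (.inr b) ↔ H.Adj a b := Iff.rfl
@[simp] lemma glue_lr (a : V) (b : W) :
    (glue G z H att).Adj (.inl a) (.inr b) ↔ a = z ∧ att b := Iff.rfl
@[simp] lemma glue_rl (a : W) (b : V) :
    (glue G z H att).Adj (.inr a) (.inl b) ↔ b = z ∧ att a := Iff.rfl
end

/-- Levels on a graph: a function `f` with a unique zero, `1`-Lipschitz along edges, such that
every vertex of positive level has a neighbour of smaller level. -/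
structure Lev {V : Type} (G : SimpleGraph V) (f : V → ℕ) : Prop where
  f0 : ∃ x, f x = 0 ∧ ∀ u, f u = 0 → u = x
  down : ∀ u, 0 < f u → ∃ w, G.Adj u w ∧ f w < f u
  lip : ∀ u w, G.Adj u w → f u ≤ f w + 1

/-- Rooted graphs with total domination parameter `κ` (all sets avoid the root `z`). -/
structure Good {V : Type} (G : SimpleGraph V) (z : V) (κ : ℕ) : Prop where
  lb0 : ∀ S : Finset V, z ∉ S → (∀ u, u ≠ z → G.Adj u z ∨ ∃ w ∈ S, G.Adj u w) → κ ≤ S.card
  lb1 : ∀ S : Finset V, z ∉ S → (∀ u, ∃ w ∈ S, G.Adj u w) → κ + 1 ≤ S.card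
  ub0 : ∃ S : Finset V, z ∉ S ∧ S.card ≤ κ ∧ ∀ u, u ≠ z → ∃ w ∈ S, G.Adj u w
  ub1 : ∃ S : Finset V, z ∉ S ∧ S.card ≤ κ ∧ ∀ u, G.Adj u z ∨ ∃ w ∈ S, G.Adj u w
  cr : ∀ v, v ≠ z → ∃ S : Finset V, z ∉ S ∧ v ∉ S ∧
    ((S.card ≤ κ ∧ ∀ u, u ≠ v → ∃ w ∈ S, G.Adj u w) ∨
      (S.card + 1 ≤ κ ∧ ∀ u, u ≠ v → u ≠ z → G.Adj u z ∨ ∃ w ∈ S, G.Adj u w))

/-- A middle block, attached along `att` and with new root `r`, raising the parameter by `3`. -/
structure MidBlock {W : Type} (H : SimpleGraph W) (att : W → Prop) (r : W) : Prop where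
  natt : ¬ att r
  F1 : ∀ S : Finset W, S.card ≤ 1 → r ∉ S →
    ∃ u, u ≠ r ∧ ¬ att u ∧ ¬ H.Adj u r ∧ ∀ s ∈ S, ¬ H.Adj u s
  F2 : ∀ S : Finset W, S.card ≤ 2 → r ∉ S → (∀ s ∈ S, ¬ att s) ∨
    ∃ u, u ≠ r ∧ ¬ H.Adj u r ∧ ∀ s ∈ S, ¬ H.Adj u s
  F3 : ∀ S : Finset W, S.card ≤ 2 → r ∉ S → ∃ u, ¬ att u ∧ ∀ s ∈ S, ¬ H.Adj u s
  F4 : ∀ S : Finset W, S.card ≤ 3 → r ∉ S → (∀ s ∈ S, ¬ att s) ∨ ∃ u, ∀ s ∈ S, ¬ H.Adj u s
  F5 : ∃ S : Finset W, S.card ≤ 2 ∧ r ∉ S ∧ ∀ u, u ≠ r → att u ∨ ∃ s ∈ S, H.Adj u s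
  F6 : ∃ S : Finset W, S.card ≤ 2 ∧ r ∉ S ∧ ∀ u, att u ∨ H.Adj u r ∨ ∃ s ∈ S, H.Adj u s
  F7 : ∃ S : Finset W, S.card ≤ 2 ∧ r ∉ S ∧ ∀ u, u ≠ r → H.Adj u r ∨ ∃ s ∈ S, H.Adj u s
  F8 : ∃ S : Finset W, S.card ≤ 2 ∧ r ∉ S ∧ (∃ s ∈ S, att s) ∧
    ∀ u, u ≠ r → att u ∨ H.Adj u r ∨ ∃ s ∈ S, H.Adj u s
  F9 : ∀ v, v ≠ r → ∃ S : Finset W, S.card ≤ 2 ∧ r ∉ S ∧ v ∉ S ∧
    (((∃ s ∈ S, att s) ∧ ∀ u, u ≠ r → u ≠ v → H.Adj u r ∨ ∃ s ∈ S, H.Adj u s) ∨
      ∀ u, u ≠ v → att u ∨ ∃ s ∈ S, H.Adj u s)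

/-- An end block, attached along `att`, adding `c + 1` to the parameter. -/
structure EndBlock {W : Type} (H : SimpleGraph W) (att : W → Prop) (c : ℕ) : Prop where
  T1 : ∃ S : Finset W, S.card ≤ c ∧ ∀ u, ∃ s ∈ S, H.Adj u s
  T2 : ∀ v, ∃ S : Finset W, v ∉ S ∧
    ((S.card ≤ c ∧ (∃ s ∈ S, att s) ∧ ∀ u, u ≠ v → ∃ s ∈ S, H.Adj u s) ∨
      (S.card + 1 ≤ c ∧ ∀ u, u ≠ v → att u ∨ ∃ s ∈ S, H.Adj u s))
  T3 : ∀ S : Finset W, S.card + 1 ≤ c → ∃ u, ¬ att u ∧ ∀ s ∈ S, ¬ H.Adj u s
  T4 : ∀ S : Finset W, S.card ≤ c → (∀ s ∈ S, ¬ att s) ∨ ∃ u, ∀ s ∈ S, ¬ H.Adj u s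
  T5 : ∃ S : Finset W, S.card ≤ c ∧ (∃ s ∈ S, att s) ∧ ∀ u, att u ∨ ∃ s ∈ S, H.Adj u s

/-- Level data on a block. -/
structure BlockLev {W : Type} (H : SimpleGraph W) (att : W → Prop) (g : W → ℕ) : Prop where
  pos : ∀ u, 0 < g u
  att1 : ∀ u, att u → g u ≤ 1
  down : ∀ u, att u ∨ ∃ w, H.Adj u w ∧ g w < g u
  lip : ∀ u w, H.Adj u w → g u ≤ g w + 1

lemma lev_glue {V W : Type} {G : SimpleGraph V} {z : V} {H : SimpleGraph W} {att : W → Prop}
    {f : V → ℕ} {g : W → ℕ} (hf : Lev G f) (hg : BlockLev H att g) :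
    Lev (glue G z H att) (Sum.elim f (fun u => f z + g u)) where
  f0 := by
    obtain ⟨x, hx, hx'⟩ := hf.f0
    refine ⟨.inl x, hx, ?_⟩
    rintro (u | u) hu
    · rw [hx' u hu]
    · have := hg.pos u
      simp only [Sum.elim_inr] at hu
      omega
  down := by
    rintro (u | u) hu
    · obtain ⟨w, hw, hw'⟩ := hf.down u hu
      exact ⟨.inl w, hw, hw'⟩
    · rcases hg.down u with h | ⟨w, hw, hw'⟩
      · refine ⟨.inl z, ⟨rfl, h⟩, ?_⟩
        have := hg.pos u
        simp only [Sum.elim_inr, Sum.elim_inl]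
        omega
      · refine ⟨.inr w, hw, ?_⟩
        simp only [Sum.elim_inr]
        omega
  lip := by
    rintro (u | u) (w | w) h
    · exact hf.lip u w h
    · obtain ⟨rfl, h'⟩ := h
      simp only [Sum.elim_inr, Sum.elim_inl]
      omega
    · obtain ⟨rfl, h'⟩ := h
      have := hg.att1 u h'
      simp only [Sum.elim_inr, Sum.elim_inl]
      omega
    · have := hg.lip u w h
      simp only [Sum.elim_inr]
      omega

section
variable {V W : Type} {G : SimpleGraph V} {z : V} {H : SimpleGraph W} {att : W → Prop}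

/-- How a left vertex is dominated in a glued graph. -/
lemma dom_inl {S : Finset (V ⊕ W)} {u : V} (hu : u ≠ z)
    (h : ∃ w ∈ S, (glue G z H att).Adj (.inl u) w) : ∃ w ∈ S.toLeft, G.Adj u w := by
  obtain ⟨w | w, hw, hw'⟩ := h
  · exact ⟨w, Finset.mem_toLeft.mpr hw, hw'⟩
  · exact absurd hw'.1 hu

lemma dom_inr {S : Finset (V ⊕ W)} {u : W}
    (h : ∃ w ∈ S, (glue G z H att).Adj (.inr u) w) :
    (z ∈ S.toLeft ∧ att u) ∨ ∃ w ∈ S.toRight, H.Adj u w := by
  obtain ⟨w | w, hw, hw'⟩ := h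
  · obtain ⟨rfl, h'⟩ := hw'
    exact Or.inl ⟨Finset.mem_toLeft.mpr hw, h'⟩
  · exact Or.inr ⟨w, Finset.mem_toRight.mpr hw, hw'⟩

lemma dom_z {S : Finset (V ⊕ W)}
    (h : ∃ w ∈ S, (glue G z H att).Adj (.inl z) w) :
    (∃ w ∈ S.toLeft, G.Adj z w) ∨ ∃ w ∈ S.toRight, att w := by
  obtain ⟨w | w, hw, hw'⟩ := h
  · exact Or.inl ⟨w, Finset.mem_toLeft.mpr hw, hw'⟩
  · exact Or.inr ⟨w, Finset.mem_toRight.mpr hw, hw'.2⟩

lemma left_lb0 {κ : ℕ} (hG : Good G z κ) {L : Finset V}
    (h : ∀ u, u ≠ z → ∃ w ∈ L, G.Adj u w) (hz : z ∈ L) : κ + 1 ≤ L.card := by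
  classical
  have h1 := hG.lb0 (L.erase z) (Finset.notMem_erase z L) (by
    intro u hu
    obtain ⟨w, hw, hw'⟩ := h u hu
    by_cases hwz : w = z
    · subst hwz; exact Or.inl hw'
    · exact Or.inr ⟨w, Finset.mem_erase.mpr ⟨hwz, hw⟩, hw'⟩)
  have h2 := Finset.card_erase_add_one hz
  omega

theorem good_glue {κ : ℕ} {r : W} (hG : Good G z κ) (hM : MidBlock H att r) :
    Good (glue G z H att) (.inr r) (κ + 3) where
  lb0 := by
    classical
    intro S hr hS
    rw [← Finset.card_toLeft_add_card_toRight]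
    have hrR : r ∉ S.toRight := fun h => hr (Finset.mem_toRight.mp h)
    have hL : ∀ u, u ≠ z → ∃ w ∈ S.toLeft, G.Adj u w := by
      intro u hu
      rcases hS (.inl u) (by simp) with h | h
      · exact absurd h.1 hu
      · exact dom_inl hu h
    have hR : ∀ u, u ≠ r → H.Adj u r ∨ (z ∈ S.toLeft ∧ att u) ∨ ∃ w ∈ S.toRight, H.Adj u w := by
      intro u hu
      rcases hS (.inr u) (by simpa using hu) with h | h
      · exact Or.inl h
      · exact Or.inr (dom_inr h)
    have hR2 : 2 ≤ S.toRight.card := by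
      by_contra hcon
      obtain ⟨u, hu1, hu2, hu3, hu4⟩ := hM.F1 S.toRight (by omega) hrR
      rcases hR u hu1 with h | h | ⟨w, hw, hw'⟩
      · exact hu3 h
      · exact hu2 h.2
      · exact hu4 w hw hw'
    by_cases hz : z ∈ S.toLeft
    · have := left_lb0 hG hL hz
      omega
    · rcases hS (.inl z) (by simp) with h | h
      · exact absurd h.2 hM.natt
      · rcases dom_z h with ⟨w, hw, hw'⟩ | ⟨w, hw, hw'⟩
        · have := hG.lb1 S.toLeft hz (by
            intro u
            by_cases hu : u = z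
            · subst hu; exact ⟨w, hw, hw'⟩
            · exact hL u hu)
          omega
        · have h1 := hG.lb0 S.toLeft hz (fun u hu => Or.inr (hL u hu))
          have h2 : 3 ≤ S.toRight.card := by
            by_contra hcon
            rcases hM.F2 S.toRight (by omega) hrR with h | ⟨u, hu1, hu2, hu3⟩
            · exact h w hw hw'
            · rcases hR u hu1 with h | h | ⟨a, ha, ha'⟩
              · exact hu2 h
              · exact hz h.1
              · exact hu3 a ha ha'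
          omega
  lb1 := by
    classical
    intro S hr hS
    rw [← Finset.card_toLeft_add_card_toRight]
    have hrR : r ∉ S.toRight := fun h => hr (Finset.mem_toRight.mp h)
    have hL : ∀ u, u ≠ z → ∃ w ∈ S.toLeft, G.Adj u w := fun u hu => dom_inl hu (hS (.inl u))
    have hR : ∀ u, (z ∈ S.toLeft ∧ att u) ∨ ∃ w ∈ S.toRight, H.Adj u w :=
      fun u => dom_inr (hS (.inr u))
    have hR2 : 3 ≤ S.toRight.card := by
      by_contra hcon
      obtain ⟨u, hu1, hu2⟩ := hM.F3 S.toRight (by omega) hrR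
      rcases hR u with h | ⟨w, hw, hw'⟩
      · exact hu1 h.2
      · exact hu2 w hw hw'
    by_cases hz : z ∈ S.toLeft
    · have := left_lb0 hG hL hz
      omega
    · rcases dom_z (hS (.inl z)) with ⟨w, hw, hw'⟩ | ⟨w, hw, hw'⟩
      · have := hG.lb1 S.toLeft hz (by
          intro u
          by_cases hu : u = z
          · subst hu; exact ⟨w, hw, hw'⟩
          · exact hL u hu)
        omega
      · have h1 := hG.lb0 S.toLeft hz (fun u hu => Or.inr (hL u hu))
        have h2 : 4 ≤ S.toRight.card := by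
          by_contra hcon
          rcases hM.F4 S.toRight (by omega) hrR with h | ⟨u, hu1⟩
          · exact h w hw hw'
          · rcases hR u with h | ⟨a, ha, ha'⟩
            · exact hz h.1
            · exact hu1 a ha ha'
        omega
  ub0 := by
    classical
    obtain ⟨L, hzL, hLc, hL⟩ := hG.ub1
    obtain ⟨R, hRc, hrR, hR⟩ := hM.F5
    refine ⟨(insert z L).disjSum R, by simpa using hrR, ?_, ?_⟩
    · rw [Finset.card_disjSum, Finset.card_insert_of_notMem hzL]; omega
    · rintro (u | u) hu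
      · rcases hL u with h | ⟨w, hw, hw'⟩
        · exact ⟨.inl z, by simp, h⟩
        · exact ⟨.inl w, by simp [hw], hw'⟩
      · rcases hR u (by simpa using hu) with h | ⟨w, hw, hw'⟩
        · exact ⟨.inl z, by simp, ⟨rfl, h⟩⟩
        · exact ⟨.inr w, by simp [hw], hw'⟩
  ub1 := by
    classical
    obtain ⟨L, hzL, hLc, hL⟩ := hG.ub1
    obtain ⟨R, hRc, hrR, hR⟩ := hM.F6
    refine ⟨(insert z L).disjSum R, by simpa using hrR, ?_, ?_⟩
    · rw [Finset.card_disjSum, Finset.card_insert_of_notMem hzL]; omega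
    · rintro (u | u)
      · right
        rcases hL u with h | ⟨w, hw, hw'⟩
        · exact ⟨.inl z, by simp, h⟩
        · exact ⟨.inl w, by simp [hw], hw'⟩
      · rcases hR u with h | h | ⟨w, hw, hw'⟩
        · exact Or.inr ⟨.inl z, by simp, ⟨rfl, h⟩⟩
        · exact Or.inl h
        · exact Or.inr ⟨.inr w, by simp [hw], hw'⟩
  cr := by
    classical
    rintro (v | v) hv
    · by_cases hvz : v = z
      · -- the old root
        subst hvz
        obtain ⟨L, hzL, hLc, hL⟩ := hG.ub0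
        obtain ⟨R, hRc, hrR, hR⟩ := hM.F7
        refine ⟨L.disjSum R, by simpa using hrR, by simpa using hzL, Or.inr ⟨?_, ?_⟩⟩
        · rw [Finset.card_disjSum]; omega
        · rintro (u | u) hu hur
          · obtain ⟨w, hw, hw'⟩ := hL u (by simpa using hu)
            exact Or.inr ⟨.inl w, by simp [hw], hw'⟩
          · rcases hR u (by simpa using hur) with h | ⟨w, hw, hw'⟩
            · exact Or.inl h
            · exact Or.inr ⟨.inr w, by simp [hw], hw'⟩
      · obtain ⟨L, hzL, hvL, ⟨hLc, hL⟩ | ⟨hLc, hL⟩⟩ := hG.cr v hvz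
        · obtain ⟨R, hRc, hrR, hR⟩ := hM.F7
          refine ⟨L.disjSum R, by simpa using hrR, by simpa using hvL, Or.inr ⟨?_, ?_⟩⟩
          · rw [Finset.card_disjSum]; omega
          · rintro (u | u) hu hur
            · obtain ⟨w, hw, hw'⟩ := hL u (by simpa using hu)
              exact Or.inr ⟨.inl w, by simp [hw], hw'⟩
            · rcases hR u (by simpa using hur) with h | ⟨w, hw, hw'⟩
              · exact Or.inl h
              · exact Or.inr ⟨.inr w, by simp [hw], hw'⟩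
        · obtain ⟨R, hRc, hrR, ⟨s, hs, hs'⟩, hR⟩ := hM.F8
          refine ⟨(insert z L).disjSum R, by simpa using hrR, ?_, Or.inr ⟨?_, ?_⟩⟩
          · simp [hvL, hvz]
          · rw [Finset.card_disjSum, Finset.card_insert_of_notMem hzL]; omega
          · rintro (u | u) hu hur
            · right
              by_cases huz : u = z
              · subst huz
                exact ⟨.inr s, by simp [hs], ⟨rfl, hs'⟩⟩
              · rcases hL u (by simpa using hu) huz with h | ⟨w, hw, hw'⟩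
                · exact ⟨.inl z, by simp, h⟩
                · exact ⟨.inl w, by simp [hw], hw'⟩
            · rcases hR u (by simpa using hur) with h | h | ⟨w, hw, hw'⟩
              · exact Or.inr ⟨.inl z, by simp, ⟨rfl, h⟩⟩
              · exact Or.inl h
              · exact Or.inr ⟨.inr w, by simp [hw], hw'⟩
    · have hvr : v ≠ r := by simpa using hv
      obtain ⟨R, hRc, hrR, hvR, ⟨⟨s, hs, hs'⟩, hR⟩ | hR⟩ := hM.F9 v hvr
      · obtain ⟨L, hzL, hLc, hL⟩ := hG.ub0
        refine ⟨L.disjSum R, by simpa using hrR, by simpa using hvR, Or.inr ⟨?_, ?_⟩⟩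
        · rw [Finset.card_disjSum]; omega
        · rintro (u | u) hu hur
          · right
            by_cases huz : u = z
            · subst huz
              exact ⟨.inr s, by simp [hs], ⟨rfl, hs'⟩⟩
            · obtain ⟨w, hw, hw'⟩ := hL u huz
              exact ⟨.inl w, by simp [hw], hw'⟩
          · rcases hR u (by simpa using hur) (by simpa using hu) with h | ⟨w, hw, hw'⟩
            · exact Or.inl h
            · exact Or.inr ⟨.inr w, by simp [hw], hw'⟩
      · obtain ⟨L, hzL, hLc, hL⟩ := hG.ub1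
        refine ⟨(insert z L).disjSum R, by simpa using hrR, by simpa using hvR, Or.inl ⟨?_, ?_⟩⟩
        · rw [Finset.card_disjSum, Finset.card_insert_of_notMem hzL]; omega
        · rintro (u | u) hu
          · rcases hL u with h | ⟨w, hw, hw'⟩
            · exact ⟨.inl z, by simp, h⟩
            · exact ⟨.inl w, by simp [hw], hw'⟩
          · rcases hR u (by simpa using hu) with h | ⟨w, hw, hw'⟩
            · exact ⟨.inl z, by simp, ⟨rfl, h⟩⟩
            · exact ⟨.inr w, by simp [hw], hw'⟩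

/-- The final properties of a `k`-critical graph. -/
structure Crit {V : Type} (G : SimpleGraph V) (k : ℕ) : Prop where
  td : ∃ S : Finset V, S.card ≤ k ∧ ∀ u, ∃ w ∈ S, G.Adj u w
  min : ∀ S : Finset V, (∀ u, ∃ w ∈ S, G.Adj u w) → k ≤ S.card
  crit : ∀ v, (¬ ∃ u : V, G.Adj v u ∧ ∀ w : V, G.Adj u w → w = v) →
    ∃ S : Finset V, v ∉ S ∧ S.card < k ∧ ∀ u, u ≠ v → ∃ w ∈ S, G.Adj u w

theorem crit_glue {κ c : ℕ} (hG : Good G z κ) (hT : EndBlock H att c) :
    Crit (glue G z H att) (κ + c + 1) where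
  td := by
    classical
    obtain ⟨L, hzL, hLc, hL⟩ := hG.ub1
    obtain ⟨R, hRc, hR⟩ := hT.T1
    refine ⟨(insert z L).disjSum R, ?_, ?_⟩
    · rw [Finset.card_disjSum, Finset.card_insert_of_notMem hzL]; omega
    · rintro (u | u)
      · rcases hL u with h | ⟨w, hw, hw'⟩
        · exact ⟨.inl z, by simp, h⟩
        · exact ⟨.inl w, by simp [hw], hw'⟩
      · obtain ⟨w, hw, hw'⟩ := hR u
        exact ⟨.inr w, by simp [hw], hw'⟩
  min := by
    classical
    intro S hS
    rw [← Finset.card_toLeft_add_card_toRight]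
    have hL : ∀ u, u ≠ z → ∃ w ∈ S.toLeft, G.Adj u w := fun u hu => dom_inl hu (hS (.inl u))
    have hR : ∀ u, (z ∈ S.toLeft ∧ att u) ∨ ∃ w ∈ S.toRight, H.Adj u w :=
      fun u => dom_inr (hS (.inr u))
    have hR2 : c ≤ S.toRight.card := by
      by_contra hcon
      obtain ⟨u, hu1, hu2⟩ := hT.T3 S.toRight (by omega)
      rcases hR u with h | ⟨w, hw, hw'⟩
      · exact hu1 h.2
      · exact hu2 w hw hw'
    by_cases hz : z ∈ S.toLeft
    · have := left_lb0 hG hL hz
      omega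
    · rcases dom_z (hS (.inl z)) with ⟨w, hw, hw'⟩ | ⟨w, hw, hw'⟩
      · have := hG.lb1 S.toLeft hz (by
          intro u
          by_cases hu : u = z
          · subst hu; exact ⟨w, hw, hw'⟩
          · exact hL u hu)
        omega
      · have h1 := hG.lb0 S.toLeft hz (fun u hu => Or.inr (hL u hu))
        have h2 : c + 1 ≤ S.toRight.card := by
          by_contra hcon
          rcases hT.T4 S.toRight (by omega) with h | ⟨u, hu1⟩
          · exact h w hw hw'
          · rcases hR u with h | ⟨a, ha, ha'⟩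
            · exact hz h.1
            · exact hu1 a ha ha'
        omega
  crit := by
    classical
    rintro (v | v) -
    · by_cases hvz : v = z
      · subst hvz
        obtain ⟨L, hzL, hLc, hL⟩ := hG.ub0
        obtain ⟨R, hRc, hR⟩ := hT.T1
        refine ⟨L.disjSum R, by simpa using hzL, ?_, ?_⟩
        · rw [Finset.card_disjSum]; omega
        · rintro (u | u) hu
          · obtain ⟨w, hw, hw'⟩ := hL u (by simpa using hu)
            exact ⟨.inl w, by simp [hw], hw'⟩
          · obtain ⟨w, hw, hw'⟩ := hR u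
            exact ⟨.inr w, by simp [hw], hw'⟩
      · obtain ⟨L, hzL, hvL, ⟨hLc, hL⟩ | ⟨hLc, hL⟩⟩ := hG.cr v hvz
        · obtain ⟨R, hRc, hR⟩ := hT.T1
          refine ⟨L.disjSum R, by simpa using hvL, ?_, ?_⟩
          · rw [Finset.card_disjSum]; omega
          · rintro (u | u) hu
            · obtain ⟨w, hw, hw'⟩ := hL u (by simpa using hu)
              exact ⟨.inl w, by simp [hw], hw'⟩
            · obtain ⟨w, hw, hw'⟩ := hR u
              exact ⟨.inr w, by simp [hw], hw'⟩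
        · obtain ⟨R, hRc, ⟨s, hs, hs'⟩, hR⟩ := hT.T5
          refine ⟨(insert z L).disjSum R, ?_, ?_, ?_⟩
          · simp [hvL, hvz]
          · rw [Finset.card_disjSum, Finset.card_insert_of_notMem hzL]; omega
          · rintro (u | u) hu
            · by_cases huz : u = z
              · subst huz
                exact ⟨.inr s, by simp [hs], ⟨rfl, hs'⟩⟩
              · rcases hL u (by simpa using hu) huz with h | ⟨w, hw, hw'⟩
                · exact ⟨.inl z, by simp, h⟩
                · exact ⟨.inl w, by simp [hw], hw'⟩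
            · rcases hR u with h | ⟨w, hw, hw'⟩
              · exact ⟨.inl z, by simp, ⟨rfl, h⟩⟩
              · exact ⟨.inr w, by simp [hw], hw'⟩
    · obtain ⟨R, hvR, ⟨hRc, ⟨s, hs, hs'⟩, hR⟩ | ⟨hRc, hR⟩⟩ := hT.T2 v
      · obtain ⟨L, hzL, hLc, hL⟩ := hG.ub0
        refine ⟨L.disjSum R, by simpa using hvR, ?_, ?_⟩
        · rw [Finset.card_disjSum]; omega
        · rintro (u | u) hu
          · by_cases huz : u = z
            · subst huz
              exact ⟨.inr s, by simp [hs], ⟨rfl, hs'⟩⟩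
            · obtain ⟨w, hw, hw'⟩ := hL u huz
              exact ⟨.inl w, by simp [hw], hw'⟩
          · obtain ⟨w, hw, hw'⟩ := hR u (by simpa using hu)
            exact ⟨.inr w, by simp [hw], hw'⟩
      · obtain ⟨L, hzL, hLc, hL⟩ := hG.ub1
        refine ⟨(insert z L).disjSum R, by simpa using hvR, ?_, ?_⟩
        · rw [Finset.card_disjSum, Finset.card_insert_of_notMem hzL]; omega
        · rintro (u | u) hu
          · rcases hL u with h | ⟨w, hw, hw'⟩
            · exact ⟨.inl z, by simp, h⟩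
            · exact ⟨.inl w, by simp [hw], hw'⟩
          · rcases hR u (by simpa using hu) with h | ⟨w, hw, hw'⟩
            · exact ⟨.inl z, by simp, ⟨rfl, h⟩⟩
            · exact ⟨.inr w, by simp [hw], hw'⟩

end

end Pool.Agent.Lib.MP_1f15ea_co
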