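import Mathlib

/-!
# Upper bound for the diameter of total domination vertex critical graphs

`cA G lv i` is the least size of a set totally dominating all vertices of level less than `i`, and
`cB G lv i` is the least size of a set totally dominating all vertices of level at least `i`.
-/

namespace Pool.Agent.Lib.MP_1f15ea_co

open Finset

variable {V : Type} [Fintype V]

noncomputable def cA (G : SimpleGraph V) (lv : V → ℕ) (i : ℕ) : ℕ :=
  sInf {n | ∃ S : Finset V, S.card = n ∧ ∀ u, lv u < i → ∃ w ∈ S, G.Adj u w}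

noncomputable def cB (G : SimpleGraph V) (lv : V → ℕ) (i : ℕ) : ℕ :=
  sInf {n | ∃ S : Finset V, S.card = n ∧ ∀ u, i ≤ lv u → ∃ w ∈ S, G.Adj u w}

lemma cA_le (G : SimpleGraph V) (lv : V → ℕ) {i : ℕ} (S : Finset V)
    (h : ∀ u, lv u < i → ∃ w ∈ S, G.Adj u w) : cA G lv i ≤ S.card := Nat.sInf_le ⟨S, rfl, h⟩

lemma cB_le (G : SimpleGraph V) (lv : V → ℕ) {i : ℕ} (S : Finset V)
    (h : ∀ u, i ≤ lv u → ∃ w ∈ S, G.Adj u w) : cB G lv i ≤ S.card := Nat.sInf_le ⟨S, rfl, h⟩

lemma cA_ex (G : SimpleGraph V) (lv : V → ℕ) (hTD : ∃ S : Finset V, ∀ u, ∃ w ∈ S, G.Adj u w)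
    (i : ℕ) : ∃ S : Finset V, S.card = cA G lv i ∧ ∀ u, lv u < i → ∃ w ∈ S, G.Adj u w := by
  obtain ⟨S, hS⟩ := hTD
  exact Nat.sInf_mem (s := {n | ∃ S : Finset V, S.card = n ∧ ∀ u, lv u < i → ∃ w ∈ S, G.Adj u w})
    ⟨S.card, S, rfl, fun u _ => hS u⟩

lemma cB_ex (G : SimpleGraph V) (lv : V → ℕ) (hTD : ∃ S : Finset V, ∀ u, ∃ w ∈ S, G.Adj u w)
    (i : ℕ) : ∃ S : Finset V, S.card = cB G lv i ∧ ∀ u, i ≤ lv u → ∃ w ∈ S, G.Adj u w := by
  obtain ⟨S, hS⟩ := hTD
  exact Nat.sInf_mem (s := {n | ∃ S : Finset V, S.card = n ∧ ∀ u, i ≤ lv u → ∃ w ∈ S, G.Adj u w})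
    ⟨S.card, S, rfl, fun u _ => hS u⟩

/-- A set with two distinct elements in levels `≤ j` and all of its elements above `j` counted. -/
lemma two_add_card (S : Finset V) (lv : V → ℕ) (i j : ℕ) (hij : i ≤ j) (u w : V) (hu : u ∈ S)
    (hw : w ∈ S) (huw : u ≠ w) (hu1 : i < lv u) (hu2 : lv u ≤ j) (hw1 : i < lv w)
    (hw2 : lv w ≤ j) :
    (S.filter (fun u => j < lv u)).card + 2 ≤ (S.filter (fun u => i < lv u)).card := by
  classical
  have hsub : insert u (insert w (S.filter (fun u => j < lv u))) ⊆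
      S.filter (fun u => i < lv u) := by
    intro a ha
    rw [Finset.mem_insert, Finset.mem_insert, Finset.mem_filter] at ha
    rw [Finset.mem_filter]
    rcases ha with rfl | rfl | ha
    · exact ⟨hu, hu1⟩
    · exact ⟨hw, hw1⟩
    · exact ⟨ha.1, by omega⟩
  have h1 : w ∉ S.filter (fun u => j < lv u) := by
    rw [Finset.mem_filter]; rintro ⟨_, h⟩; omega
  have h2 : u ∉ insert w (S.filter (fun u => j < lv u)) := by
    rw [Finset.mem_insert, Finset.mem_filter]
    rintro (h | ⟨_, h⟩)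
    · exact huw h
    · omega
  have := Finset.card_le_card hsub
  rw [Finset.card_insert_of_notMem h2, Finset.card_insert_of_notMem h1] at this
  omega

lemma lo_add_hi (S : Finset V) (lv : V → ℕ) (i : ℕ) :
    (S.filter (fun u => lv u ≤ i)).card + (S.filter (fun u => i < lv u)).card = S.card := by
  have := Finset.card_filter_add_card_filter_not (s := S) (fun u => lv u ≤ i)
  simpa only [not_le] using this

lemma lo_mono (S : Finset V) (lv : V → ℕ) {i j : ℕ} (hij : i ≤ j) :
    (S.filter (fun u => lv u ≤ i)).card ≤ (S.filter (fun u => lv u ≤ j)).card := by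
  apply Finset.card_le_card
  intro a ha
  rw [Finset.mem_filter] at ha ⊢
  exact ⟨ha.1, by omega⟩

theorem upper_abs (G : SimpleGraph V) (lv : V → ℕ) (k d : ℕ) (hk : 4 ≤ k)
    (F1 : ∀ u w, G.Adj u w → lv w ≤ lv u + 1)
    (F2 : ∀ u, 0 < lv u → ∃ w, G.Adj u w ∧ lv w + 1 = lv u)
    (F3 : ∀ i, i ≤ d → ∃ u, lv u = i)
    (hTD : ∃ S : Finset V, ∀ u, ∃ w ∈ S, G.Adj u w)
    (hmin : ∀ S : Finset V, (∀ u, ∃ w ∈ S, G.Adj u w) → k ≤ S.card)
    (hcrit : ∀ v : V, (¬ ∃ u : V, G.Adj v u ∧ ∀ w : V, G.Adj u w → w = v) →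
        ∃ S : Finset V, v ∉ S ∧ S.card < k ∧ ∀ u : V, u ≠ v → ∃ w ∈ S, G.Adj u w) :
    3 * d + 7 ≤ 5 * k := by
  classical
  set A := cA G lv with hA
  set B := cB G lv with hB
  -- union bound
  have hU : ∀ i, k ≤ A i + B i := by
    intro i
    obtain ⟨P, hP1, hP2⟩ := cA_ex G lv hTD i
    obtain ⟨Q, hQ1, hQ2⟩ := cB_ex G lv hTD i
    have h1 := hmin (P ∪ Q) (by
      intro u
      rcases Nat.lt_or_ge (lv u) i with h | h
      · obtain ⟨w, hw, hw'⟩ := hP2 u h
        exact ⟨w, Finset.mem_union_left _ hw, hw'⟩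
      · obtain ⟨w, hw, hw'⟩ := hQ2 u h
        exact ⟨w, Finset.mem_union_right _ hw, hw'⟩)
    have h2 := Finset.card_union_le P Q
    rw [hP1, hQ1] at h2
    exact h1.trans h2
  have hmono : ∀ i, B (i + 1) ≤ B i := by
    intro i
    obtain ⟨Q, hQ1, hQ2⟩ := cB_ex G lv hTD i
    rw [hB, ← hQ1]
    exact cB_le G lv Q (fun u hu => hQ2 u (by omega))
  -- restriction of sets to levels
  have hresB : ∀ (S : Finset V) (i : ℕ), (∀ u, i + 2 ≤ lv u → ∃ w ∈ S, G.Adj u w) →
      B (i + 2) ≤ (S.filter (fun u => i < lv u)).card := by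
    intro S i h
    apply cB_le
    intro u hu
    obtain ⟨w, hw, hw'⟩ := h u hu
    refine ⟨w, Finset.mem_filter.mpr ⟨hw, ?_⟩, hw'⟩
    have := F1 w u hw'.symm
    omega
  have hresA : ∀ (S : Finset V) (i : ℕ), (∀ u, lv u < i → ∃ w ∈ S, G.Adj u w) →
      A i ≤ (S.filter (fun u => lv u ≤ i)).card := by
    intro S i h
    apply cA_le
    intro u hu
    obtain ⟨w, hw, hw'⟩ := h u hu
    refine ⟨w, Finset.mem_filter.mpr ⟨hw, ?_⟩, hw'⟩
    have := F1 u w hw'
    omega
  -- leaves
  have hleaf : ∀ v u, 2 ≤ lv v → G.Adj v u → (∀ w, G.Adj u w → w = v) → lv u = lv v + 1 := by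
    intro v u hv hvu hu
    have h0 : 0 < lv u := by
      have := F1 u v hvu.symm
      omega
    obtain ⟨w, hw, hw'⟩ := F2 u h0
    rw [hu w hw] at hw'
    omega
  have hleafns : ∀ v u, 2 ≤ lv v → G.Adj v u → (∀ w, G.Adj u w → w = v) →
      ¬ ∃ a, G.Adj u a ∧ ∀ w, G.Adj a w → w = u := by
    rintro v u hv hvu hu ⟨a, ha, ha'⟩
    have h1 := hu a ha
    subst h1
    obtain ⟨w, hw, hw'⟩ := F2 a (by omega)
    have h2 := ha' w hw
    subst h2
    have := hleaf a w hv hvu hu
    omega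
  -- the basic inequality
  have hI : ∀ m, 2 ≤ m → m + 1 ≤ d → A m + B (m + 2) + 1 ≤ k := by
    intro m hm hmd
    obtain ⟨v, hv⟩ := F3 m (by omega)
    have key : ∀ v, (lv v = m ∨ lv v = m + 1) →
        (¬ ∃ u : V, G.Adj v u ∧ ∀ w : V, G.Adj u w → w = v) → A m + B (m + 2) + 1 ≤ k := by
      intro v hv hns
      obtain ⟨S, hvS, hcard, hS⟩ := hcrit v hns
      have h1 := hresA S m (fun u hu => hS u (by rintro rfl; omega))
      have h2 := hresB S m (fun u hu => hS u (by rintro rfl; omega))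
      have h3 := lo_add_hi S lv m
      omega
    by_cases hs : ∃ u : V, G.Adj v u ∧ ∀ w : V, G.Adj u w → w = v
    · obtain ⟨u, hvu, hu⟩ := hs
      exact key u (Or.inr (by rw [hleaf v u (by omega) hvu hu, hv])) (hleafns v u (by omega) hvu hu)
    · exact key v (Or.inl hv) hs
  have hD : ∀ m, 2 ≤ m → m + 1 ≤ d → B (m + 2) + 1 ≤ B m := by
    intro m hm hmd
    have h1 := hI m hm hmd
    have h2 := hU m
    omega
  -- the local contradiction
  have hX : ∀ n, n + 2 ≤ d → B (n + 2) ≤ B (n + 5) + 1 → k ≤ A n + B (n + 3) + 1 →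
      B (n + 3) ≤ B (n + 5) + 1 → k ≤ A (n + 2) + B (n + 3) → False := by
    intro n hnd h0 h1 h2 h3
    obtain ⟨v, hv⟩ := F3 (n + 2) hnd
    by_cases hs : ∃ u : V, G.Adj v u ∧ ∀ w : V, G.Adj u w → w = v
    · obtain ⟨u, hvu, hu⟩ := hs
      have hlu := hleaf v u (by omega) hvu hu
      obtain ⟨Q, hQ1, hQ2⟩ := cB_ex G lv hTD (n + 2)
      have hvQ : v ∈ Q := by
        obtain ⟨w, hw, hw'⟩ := hQ2 u (by omega)
        rw [← hu w hw']; exact hw
      obtain ⟨w, hw, hw'⟩ := hQ2 v (by omega)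
      have hwne : v ≠ w := G.ne_of_adj hw'
      have hl1 := F1 v w hw'
      have hl2 := F1 w v hw'.symm
      have e1 : B (n + 3 + 2) ≤ (Q.filter (fun u => n + 3 < lv u)).card :=
        hresB Q (n + 3) (fun a ha => hQ2 a (by omega))
      have e2 := two_add_card Q lv n (n + 3) (by omega) v w hvQ hw hwne (by omega) (by omega)
        (by omega) (by omega)
      have e3 := Finset.card_filter_le Q (fun u => n < lv u)
      have e4 : Q.card = B (n + 2) := hQ1
      have e5 : B (n + 3 + 2) = B (n + 5) := rfl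
      omega
    · obtain ⟨S, hvS, hcard, hS⟩ := hcrit v hs
      have e1 : A n ≤ (S.filter (fun u => lv u ≤ n)).card :=
        hresA S n (fun u hu => hS u (by rintro rfl; omega))
      have e2 : B (n + 1 + 2) ≤ (S.filter (fun u => n + 1 < lv u)).card :=
        hresB S (n + 1) (fun u hu => hS u (by rintro rfl; omega))
      have e3 : A (n + 2) ≤ (S.filter (fun u => lv u ≤ n + 2)).card :=
        hresA S (n + 2) (fun u hu => hS u (by rintro rfl; omega))
      have e4 : B (n + 3 + 2) ≤ (S.filter (fun u => n + 3 < lv u)).card :=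
        hresB S (n + 3) (fun u hu => hS u (by rintro rfl; omega))
      have f1 := lo_add_hi S lv n
      have f2 := lo_add_hi S lv (n + 1)
      have f3 := lo_add_hi S lv (n + 2)
      have f4 := lo_add_hi S lv (n + 3)
      have g1 := lo_mono S lv (show n ≤ n + 1 by omega)
      have g5 : B (n + 3 + 2) = B (n + 5) := rfl
      have g6 : B (n + 1 + 2) = B (n + 3) := rfl
      -- there is an element of `S` on level `n + 2`
      have hex : ∃ u ∈ S, lv u = n + 2 := by
        by_contra hcon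
        push Not at hcon
        have : (S.filter (fun u => lv u ≤ n + 2)).card ≤ (S.filter (fun u => lv u ≤ n + 1)).card := by
          apply Finset.card_le_card
          intro a ha
          rw [Finset.mem_filter] at ha ⊢
          have := hcon a ha.1
          exact ⟨ha.1, by omega⟩
        omega
      obtain ⟨u, huS, hu⟩ := hex
      obtain ⟨w, hwS, hw⟩ := hS u (by rintro rfl; exact hvS huS)
      have hl1 := F1 u w hw
      have hl2 := F1 w u hw.symm
      have hwn : lv w ≠ n + 1 := by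
        intro hwl
        have : (S.filter (fun u => lv u ≤ n)).card < (S.filter (fun u => lv u ≤ n + 1)).card := by
          apply Finset.card_lt_card
          rw [Finset.ssubset_iff_of_subset]
          · refine ⟨w, Finset.mem_filter.mpr ⟨hwS, by omega⟩, ?_⟩
            rw [Finset.mem_filter]; rintro ⟨_, h⟩; omega
          · intro a ha
            rw [Finset.mem_filter] at ha ⊢
            exact ⟨ha.1, by omega⟩
        omega
      have e5 := two_add_card S lv (n + 1) (n + 3) (by omega) u w huS hwS (G.ne_of_adj hw)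
        (by omega) (by omega) (by omega) (by omega)
      omega
  -- windows of five
  have hW : ∀ j, 2 ≤ j → j + 4 ≤ d → B (j + 5) + 3 ≤ B j := by
    intro j hj hjd
    by_contra hcon
    push Not at hcon
    have d0 : B (j + 2) + 1 ≤ B j := hD j (by omega) (by omega)
    have d1 : B (j + 1 + 2) + 1 ≤ B (j + 1) := hD (j + 1) (by omega) (by omega)
    have d2 : B (j + 2 + 2) + 1 ≤ B (j + 2) := hD (j + 2) (by omega) (by omega)
    have d3 : B (j + 3 + 2) + 1 ≤ B (j + 3) := hD (j + 3) (by omega) (by omega)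
    have m0 := hmono j
    have m4 : B (j + 4 + 1) ≤ B (j + 4) := hmono (j + 4)
    have r1 : B (j + 1 + 2) = B (j + 3) := rfl
    have r2 : B (j + 2 + 2) = B (j + 4) := rfl
    have r3 : B (j + 3 + 2) = B (j + 5) := rfl
    have r4 : B (j + 4 + 1) = B (j + 5) := rfl
    have u0 := hU j
    have u2 := hU (j + 2)
    exact hX j (by omega) (by omega) (by omega) (by omega) (by omega)
  -- end conditions
  have hA2 : 2 ≤ A 2 := by
    obtain ⟨P, hP1, hP2⟩ := cA_ex G lv hTD 2
    obtain ⟨x, hx⟩ := F3 0 (by omega)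
    obtain ⟨w, hw, hw'⟩ := hP2 x (by omega)
    have hl := F1 x w hw'
    obtain ⟨w', hw2, hw3⟩ := hP2 w (by omega)
    have : 2 ≤ P.card := by
      rw [← Finset.card_pair (G.ne_of_adj hw3)]
      apply Finset.card_le_card
      intro a ha
      rw [Finset.mem_insert, Finset.mem_singleton] at ha
      rcases ha with rfl | rfl <;> assumption
    rw [hP1] at this
    exact this
  have hBd : 1 ≤ B d := by
    obtain ⟨Q, hQ1, hQ2⟩ := cB_ex G lv hTD d
    obtain ⟨y, hy⟩ := F3 d le_rfl
    obtain ⟨w, hw, hw'⟩ := hQ2 y (by omega)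
    have : 1 ≤ Q.card := Finset.card_pos.mpr ⟨w, hw⟩
    rw [hQ1] at this
    exact this
  have hBd1 : ∀ e, e + 1 = d → 2 ≤ B e := by
    intro e he
    obtain ⟨Q, hQ1, hQ2⟩ := cB_ex G lv hTD e
    obtain ⟨y, hy⟩ := F3 d le_rfl
    obtain ⟨w, hw, hw'⟩ := hQ2 y (by omega)
    have hl := F1 w y hw'.symm
    obtain ⟨w', hw2, hw3⟩ := hQ2 w (by omega)
    have : 2 ≤ Q.card := by
      rw [← Finset.card_pair (G.ne_of_adj hw3)]
      apply Finset.card_le_card
      intro a ha
      rw [Finset.mem_insert, Finset.mem_singleton] at ha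
      rcases ha with rfl | rfl <;> assumption
    rw [hQ1] at this
    exact this
  -- conclusion
  by_contra hcon
  push Not at hcon
  have hd5 : 5 ≤ d := by omega
  have hB4 : B 4 + 3 ≤ k := by
    have h := hI 2 le_rfl (by omega)
    have h4 : B (2 + 2) = B 4 := rfl
    omega
  have hiter : ∀ (t j : ℕ), 2 ≤ j → j + 5 * t ≤ d + 1 → B (j + 5 * t) + 3 * t ≤ B j := by
    intro t
    induction t with
    | zero => intro j _ _; simp
    | succ t ih =>
      intro j hj hjd
      have h1 := ih j hj (by omega)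
      have h2 := hW (j + 5 * t) (by omega) (by omega)
      have h3 : j + 5 * t + 5 = j + 5 * (t + 1) := by ring
      rw [h3] at h2
      omega
  obtain ⟨t, r, hr, hdt⟩ : ∃ t r, r < 5 ∧ d + 1 = 4 + 5 * t + r :=
    ⟨(d - 3) / 5, (d - 3) % 5, Nat.mod_lt _ (by omega), by omega⟩
  have h4t := hiter t 4 (by omega) (by omega)
  have hmono2 : ∀ i j, i ≤ j → B j ≤ B i := by
    intro i j hij
    induction j, hij using Nat.le_induction with
    | base => exact le_rfl
    | succ j _ ih => exact (hmono j).trans ih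
  interval_cases r
  · -- the delicate case `d + 1 = 4 + 5 t`
    have hB4' : B 4 + 3 = k := by omega
    have ht : 1 ≤ t := by omega
    obtain ⟨s, rfl⟩ : ∃ s, t = s + 1 := ⟨t - 1, by omega⟩
    have h5 := hiter s 5 (by omega) (by omega)
    have h7 := hiter s 7 (by omega) (by omega)
    have hd3 : 3 ≤ B (5 + 5 * s) := by
      have h1 := hD (5 + 5 * s) (by omega) (by omega)
      have h2 := hBd1 (5 + 5 * s + 2) (by omega)
      omega
    have hd1 : 2 ≤ B (7 + 5 * s) := hBd1 (7 + 5 * s) (by omega)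
    have m4 : B 5 ≤ B 4 := hmono 4
    have m6 : B 7 ≤ B 6 := hmono 6
    have hD4 : B 6 + 1 ≤ B 4 := hD 4 (by omega) (by omega)
    have hU4 := hU 4
    exact hX 2 (by omega) (by show B 4 ≤ B 7 + 1; omega) (by show k ≤ A 2 + B 5 + 1; omega)
      (by show B 5 ≤ B 7 + 1; omega) (by show k ≤ A 4 + B 5; omega)
  · have h1 : 4 + 5 * t = d := by omega
    rw [h1] at h4t
    omega
  · have h1 := hBd1 (4 + 5 * t) (by omega)
    omega
  · have h1 := hBd1 (4 + 5 * t + 1) (by omega)
    have h2 := hmono (4 + 5 * t)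
    omega
  · have h1 := hBd1 (4 + 5 * t + 2) (by omega)
    have h2 := hD (4 + 5 * t) (by omega) (by omega)
    omega

end Pool.Agent.Lib.MP_1f15ea_co
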